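import Pool.Agent.Work.MP_223b32_es.Interface

/-! # ORB2 (el_blocks, helper96) -/

set_option autoImplicit false

namespace Pool.Agent.Work.ES
namespace ORB2

open Pool.Agent.Work.TL (AA Om)

theorem three_dvd (k : ℕ) : ∃ t : ℤ, (2 : ℤ) ^ 3 ^ k + 1 = 3 ^ (k + 1) * t := by
  induction k with
  | zero => exact ⟨1, by norm_num⟩
  | succ k ih =>
    obtain ⟨t, ht⟩ := ih
    have ha : (2 : ℤ) ^ 3 ^ k = 3 ^ (k + 1) * t - 1 := by linarith
    refine ⟨t * (3 ^ (k + 1) * t * (3 ^ k * t) - 3 ^ (k + 1) * t + 1), ?_⟩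
    have h1 : (2 : ℤ) ^ 3 ^ (k + 1) = (2 ^ 3 ^ k) ^ 3 := by rw [← pow_mul, pow_succ]
    rw [h1, ha, pow_succ 3 (k + 1), pow_succ 3 k]
    ring

theorem val4 (m : ℕ) (hm : 0 < m) : padicValNat 3 (4 ^ m - 1) = 1 + padicValNat 3 m := by
  have : Fact (Nat.Prime 3) := ⟨Nat.prime_three⟩
  have h := padicValNat.pow_sub_pow (p := 3) (x := 4) (y := 1) (by norm_num) (by norm_num) (by norm_num)
    (by norm_num) (n := m) hm.ne'
  rw [one_pow] at h
  rw [h]
  norm_num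

theorem bound (k d : ℕ) (hd : 0 < d) (h : 3 ^ (k + 1) ∣ 2 ^ d - 1) : 2 * 3 ^ k ≤ d := by
  have : Fact (Nat.Prime 3) := ⟨Nat.prime_three⟩
  rcases Nat.even_or_odd' d with ⟨m, rfl | rfl⟩
  · have hm : 0 < m := by omega
    rw [pow_mul] at h
    norm_num at h
    have h2 : (4 ^ m - 1 : ℕ) ≠ 0 := by
      have : 4 ^ 1 ≤ 4 ^ m := Nat.pow_le_pow_right (by norm_num) hm
      omega
    have h3 := (padicValNat_dvd_iff_le h2).1 h
    rw [val4 m hm] at h3
    have h4 : 3 ^ k ∣ m := (padicValNat_dvd_iff_le hm.ne').2 (by omega)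
    have := Nat.le_of_dvd hm h4
    omega
  · exfalso
    have h1 : 3 ∣ 2 ^ (2 * m + 1) - 1 := (dvd_pow_self 3 (Nat.succ_ne_zero k)).trans h
    have h2 : 2 ^ (2 * m + 1) % 3 = 2 := by
      rw [pow_succ, pow_mul, Nat.mul_mod, Nat.pow_mod]; norm_num
    have h3 : 1 ≤ 2 ^ (2 * m + 1) := Nat.one_le_two_pow
    omega

theorem prim_iff (k : ℕ) (x : Om) :
    x ^ 3 ^ (k + 1) = 1 ∧ x ^ 3 ^ k ≠ 1 ↔ IsPrimitiveRoot x (3 ^ (k + 1)) := by
  have : Fact (Nat.Prime 3) := ⟨Nat.prime_three⟩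
  constructor
  · rintro ⟨h1, h2⟩
    have := orderOf_eq_prime_pow h2 h1
    rw [← this]
    exact IsPrimitiveRoot.orderOf x
  · intro h
    refine ⟨h.pow_eq_one, fun h2 => ?_⟩
    have := Nat.le_of_dvd (by positivity) (h.dvd_of_pow_eq_one _ h2)
    have h3 : 3 ^ k < 3 ^ (k + 1) := Nat.pow_lt_pow_right (by norm_num) (by omega)
    omega

end ORB2

open Pool.Agent.Work.TL (AA Om)
open ORB2

theorem stmt_ORB2 : Stmt_ORB2 := by
  classical
  intro k ξ h1 h2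
  have hξ : IsPrimitiveRoot ξ (3 ^ (k + 1)) := (prim_iff k ξ).1 ⟨h1, h2⟩
  have hinj : ∀ s < 2 * 3 ^ k, ∀ t < 2 * 3 ^ k, ξ ^ 2 ^ s = ξ ^ 2 ^ t → s = t := by
    have key : ∀ s t : ℕ, s < t → t < 2 * 3 ^ k → ξ ^ 2 ^ s ≠ ξ ^ 2 ^ t := by
      intro s t hst ht he
      have h3 : ξ ^ (2 ^ t - 2 ^ s) = 1 := by
        have h4 : 2 ^ s ≤ 2 ^ t := Nat.pow_le_pow_right (by norm_num) hst.le
        have h5 : ξ ^ (2 ^ t - 2 ^ s) * ξ ^ 2 ^ s = 1 * ξ ^ 2 ^ s := by
          rw [← pow_add, Nat.sub_add_cancel h4, one_mul, he]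
        exact mul_right_cancel₀ (pow_ne_zero _ (hξ.ne_zero (by positivity))) h5
      have h6 : 3 ^ (k + 1) ∣ 2 ^ t - 2 ^ s := hξ.dvd_of_pow_eq_one _ h3
      have h7 : 2 ^ t - 2 ^ s = 2 ^ s * (2 ^ (t - s) - 1) := by
        rw [Nat.mul_sub, ← pow_add, mul_one]
        congr 2
        omega
      rw [h7] at h6
      have h8 : Nat.Coprime (3 ^ (k + 1)) (2 ^ s) := Nat.Coprime.pow _ _ (by norm_num)
      have h9 := bound k (t - s) (by omega) (h8.dvd_of_dvd_mul_left h6)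
      omega
    intro s hs t ht he
    rcases lt_trichotomy s t with h | h | h
    · exact absurd he (key s t h ht)
    · exact h
    · exact absurd he.symm (key t s h hs)
  refine ⟨?_, ?_, hinj⟩
  · obtain ⟨t, ht⟩ := three_dvd k
    have h3 : 3 ^ (k + 1) ∣ 2 ^ 3 ^ k + 1 := by
      have : ((3 ^ (k + 1) : ℕ) : ℤ) ∣ ((2 ^ 3 ^ k + 1 : ℕ) : ℤ) := by
        push_cast
        exact ⟨t, ht⟩
      exact_mod_cast this
    have h4 : ξ ^ (2 ^ 3 ^ k + 1) = 1 := (hξ.pow_eq_one_iff_dvd _).2 h3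
    rw [pow_succ] at h4
    exact eq_inv_of_mul_eq_one_left h4
  · intro x
    rw [prim_iff]
    have hsub : (Finset.range (2 * 3 ^ k)).image (fun s => ξ ^ 2 ^ s) ⊆
        primitiveRoots (3 ^ (k + 1)) Om := by
      intro y hy
      obtain ⟨s, _, rfl⟩ := Finset.mem_image.1 hy
      rw [mem_primitiveRoots (by positivity)]
      exact hξ.pow_of_coprime _ (Nat.Coprime.pow _ _ (by norm_num))
    have hcard : (primitiveRoots (3 ^ (k + 1)) Om).card = 2 * 3 ^ k := by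
      rw [hξ.card_primitiveRoots, Nat.totient_prime_pow Nat.prime_three (by omega)]
      simp [mul_comm]
    have hcard2 : ((Finset.range (2 * 3 ^ k)).image (fun s => ξ ^ 2 ^ s)).card = 2 * 3 ^ k := by
      rw [Finset.card_image_of_injOn, Finset.card_range]
      intro s hs t ht he
      exact hinj s (by simpa using hs) t (by simpa using ht) he
    have heq := Finset.eq_of_subset_of_card_le hsub (by rw [hcard, hcard2])
    rw [← mem_primitiveRoots (by positivity), ← heq, Finset.mem_image]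
    constructor
    · rintro ⟨s, hs, rfl⟩
      exact ⟨s, Finset.mem_range.1 hs, rfl⟩
    · rintro ⟨s, hs, rfl⟩
      exact ⟨s, Finset.mem_range.2 hs, rfl⟩

end Pool.Agent.Work.ES
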