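import Pool.Agent.Work.MP_223b32_es.Interface

/-! # TRL (el_blocks, helper96) -/

set_option autoImplicit false

namespace Pool.Agent.Work.ES
namespace TRL

open Polynomial

/-- the shift of an integral domain preserves irreducibility -/
theorem irr_shift {F : Type} [Field F] (s : F) (P : F[X]) :
    Irreducible (P.comp (X + C s)) ↔ Irreducible P := by
  have h := MulEquiv.irreducible_iff (Polynomial.algEquivAevalXAddC s : F[X] ≃ₐ[F] F[X]) (x := P)
  rw [← h]
  have : (Polynomial.algEquivAevalXAddC s : F[X] ≃ₐ[F] F[X]) P = P.comp (X + C s) := by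
    rw [Polynomial.algEquivAevalXAddC_apply, Polynomial.comp, Polynomial.aeval_def]
    rfl
  rw [this]

theorem three_ne {F : Type} [Field F] [Fintype F] (h : Fintype.card F % 6 = 1) : (3 : F) ≠ 0 := by
  intro h0
  have h1 : ((3 : ℕ) : F) = 0 := by exact_mod_cast h0
  have h2 : ringChar F ∣ 3 := ringChar.dvd h1
  have h3 : ringChar F = 3 := by
    rcases (Nat.dvd_prime Nat.prime_three).1 h2 with h | h
    · exact absurd h CharP.ringChar_ne_one
    · exact h
  have : Fact (Nat.Prime 3) := ⟨Nat.prime_three⟩
  have h4 : 3 ∣ Fintype.card F := (prime_dvd_char_iff_dvd_card 3).1 (by rw [h3])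
  omega

end TRL

open Polynomial
open TRL

theorem stmt_TRL : Stmt_TRL := by
  intro F _ _ hF m hm hd
  have h3 := three_ne hF
  obtain ⟨u, v, w, hmu⟩ : ∃ u v w : F, m = X ^ 3 + C u * X ^ 2 + C v * X + C w := by
    refine ⟨m.coeff 2, m.coeff 1, m.coeff 0, ?_⟩
    have h4 := m.as_sum_range_C_mul_X_pow
    have h5 : m.coeff 3 = 1 := by rw [← hd]; exact hm
    rw [hd, Finset.sum_range_succ, Finset.sum_range_succ, Finset.sum_range_succ,
      Finset.sum_range_succ, Finset.sum_range_zero, h5] at h4
    rw [h4]
    simp only [map_one, one_mul, pow_zero, mul_one, pow_one, zero_add]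
    simp
    ring
  set s : F := -u / 3 with hs
  set c : F := -(3 * s ^ 2 + 2 * u * s + v) / 3 with hc
  set e : F := s ^ 3 + u * s ^ 2 + v * s + w with he
  have hsu : 3 * s + u = 0 := by rw [hs]; field_simp; ring
  have hc3 : 3 * s ^ 2 + 2 * u * s + v = -(3 * c) := by rw [hc]; field_simp
  have hcomp : m.comp (X + C s) = (X + C e).comp (mm c) := by
    have h1 : C (3 * s ^ 2 + 2 * u * s + v) = (C (-(3 * c)) : F[X]) := by rw [hc3]
    have h2 : C (3 * s + u) = (0 : F[X]) := by rw [hsu, map_zero]
    simp only [map_add, map_mul, map_pow, map_neg, map_ofNat] at h1 h2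
    rw [hmu, he, mm]
    simp only [add_comp, pow_comp, mul_comp, X_comp, C_comp, map_add, map_mul, map_pow, map_ofNat]
    linear_combination X * h1 + X ^ 2 * h2
  have hDcomp : ∀ D : F[X], (D.comp m).comp (X + C s) = (D.comp (X + C e)).comp (mm c) := by
    intro D
    rw [comp_assoc, comp_assoc, hcomp]
  refine ⟨c, e, fun n hn => ⟨fun D => ?_, fun D M α => ?_⟩⟩
  · have h1 : (D.comp (X + C e)).Monic ↔ D.Monic := by
      rw [Monic, Monic, leadingCoeff_comp (by rw [natDegree_X_add_C]; exact one_ne_zero),
        leadingCoeff_X_add_C, one_pow, mul_one]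
    have h2 : (D.comp (X + C e)).natDegree = D.natDegree := by
      rw [natDegree_comp, natDegree_X_add_C, mul_one]
    have h3 : Irreducible ((D.comp (X + C e)).comp (mm c)) ↔ Irreducible (D.comp m) := by
      rw [← hDcomp, irr_shift]
    simp only [fam, Set.mem_ofPred_eq]
    rw [h1, h2, h3]
  · have key : IsFrobS F m D α ↔ IsFrobS F (mm c) (D.comp (X + C e)) α := by
      unfold IsFrobS
      have hcount : ∀ (E : Type) [Field E] [Fintype E] [Algebra F E],
          Nat.card {P : E × E × E // P.2.2 ^ 2 = aeval P.2.1 D * (aeval P.1 m - P.2.1)} =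
          Nat.card {P : E × E × E // P.2.2 ^ 2 =
            aeval P.2.1 (D.comp (X + C e)) * (aeval P.1 (mm c) - P.2.1)} := by
        intro E _ _ _
        have hme : ∀ y : E, aeval (y + algebraMap F E s) m = aeval y (mm c) + algebraMap F E e := by
          intro y
          have h1 : aeval y (m.comp (X + C s)) = aeval y ((X + C e).comp (mm c)) := by rw [hcomp]
          rw [aeval_comp, aeval_comp] at h1
          simpa using h1
        have hDe : ∀ t : E, aeval t (D.comp (X + C e)) = aeval (t + algebraMap F E e) D := by
          intro t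
          rw [aeval_comp]
          simp
        refine Nat.card_congr
          { toFun := fun P => ⟨(P.1.1 - algebraMap F E s, P.1.2.1 - algebraMap F E e, P.1.2.2), ?_⟩
            invFun := fun P => ⟨(P.1.1 + algebraMap F E s, P.1.2.1 + algebraMap F E e, P.1.2.2), ?_⟩
            left_inv := ?_
            right_inv := ?_ }
        · have h := P.2
          simp only
          rw [hDe]
          have h2 := hme (P.1.1 - algebraMap F E s)
          rw [sub_add_cancel] at h2
          rw [sub_add_cancel, h, h2]
          ring
        · have h := P.2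
          simp only
          rw [h, hDe, hme]
          ring
        · intro P
          ext <;> simp
        · intro P
          ext <;> simp
      constructor
      · intro h E _ _ _
        rw [← hcount E]; exact h E
      · intro h E _ _ _
        rw [hcount E]; exact h E
    constructor
    · rintro ⟨a, b, f⟩
      exact ⟨a, b, key.1 f⟩
    · rintro ⟨a, b, f⟩
      exact ⟨a, b, key.2 f⟩

end Pool.Agent.Work.ES
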